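import Pool.Agent.W617.LG.StmI

set_option autoImplicit false
open Topology Filter Set Matrix
open scoped ContDiff InnerProductSpace

namespace Pool.Agent.W645.LG

open Pool.Agent.W617.LG

variable {q : ℕ}

/-- the adjoint as a continuous linear map -/
noncomputable def adjL (q : ℕ) : (E q →L[ℝ] E q) →L[ℝ] (E q →L[ℝ] E q) :=
  LinearMap.mkContinuous
    { toFun := fun A => ContinuousLinearMap.adjoint A
      map_add' := fun A B => map_add _ A B
      map_smul' := fun c A => by
        rw [map_smulₛₗ]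
        simp } 1 (fun A => by
        rw [one_mul]
        exact (LinearIsometryEquiv.norm_map ContinuousLinearMap.adjoint A).le)

theorem adjL_apply (A : E q →L[ℝ] E q) : adjL q A = ContinuousLinearMap.adjoint A := rfl

theorem adjL_inner (A : E q →L[ℝ] E q) (a b : E q) : ⟪adjL q A a, b⟫_ℝ = ⟪a, A b⟫_ℝ :=
  ContinuousLinearMap.adjoint_inner_left A b a

theorem adjL_mul (A B : E q →L[ℝ] E q) : adjL q (A * B) = adjL q B * adjL q A :=
  ContinuousLinearMap.adjoint_comp A B

theorem adjL_one : adjL q 1 = 1 := ContinuousLinearMap.adjoint_id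

theorem adjL_smul (t : ℝ) (A : E q →L[ℝ] E q) : adjL q (t • A) = t • adjL q A := map_smul _ _ _

theorem adjL_self {A : E q →L[ℝ] E q} (h : ∀ b c, ⟪A b, c⟫_ℝ = ⟪A c, b⟫_ℝ) : adjL q A = A := by
  ext1 a
  refine ext_inner_right ℝ fun b => ?_
  rw [adjL_inner, real_inner_comm, h]

/-- constancy along rays -/
theorem J_hom {C : TF q} {J : ℝ → E q → (E q →L[ℝ] E q)} (hC : CW q C) (hJ : JF q C J)
    (t : ℝ) (x : E q) (hx : x ≠ 0) (r : ℝ) (hr : 0 < r) : J t (r • x) = J t x := by
  have hd : ∀ s ∈ Ioi (0 : ℝ), HasDerivAt (fun s : ℝ => J t (s • x)) 0 s := by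
    intro s hs
    have hsx : s • x ≠ 0 := smul_ne_zero (ne_of_gt hs) hx
    have h1 := hJ.der t (s • x) hsx
    have h2 : HasDerivAt (fun s : ℝ => s • x) x s := by
      simpa using (hasDerivAt_id s).smul_const x
    have h3 := h1.comp_hasDerivAt s h2
    have h4 : C (s • x) x = 0 := by
      have h5 := hC.rad (s • x) hsx
      rw [map_smul] at h5
      exact (smul_eq_zero.1 h5).resolve_left (ne_of_gt hs)
    have h6 : (t • ((ContinuousLinearMap.compL ℝ (E q) (E q) (E q) (J t (s • x))).comp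
        (C (s • x)))) x = 0 := by
      rw [_root_.smul_apply, ContinuousLinearMap.comp_apply, h4, map_zero, smul_zero]
    rw [h6] at h3
    exact h3
  have h7 := isOpen_Ioi.is_const_of_deriv_eq_zero (s := Ioi (0 : ℝ)) (f := fun s : ℝ => J t (s • x))
    isPreconnected_Ioi (fun s hs => (hd s hs).differentiableAt.differentiableWithinAt)
    (fun s hs => (hd s hs).deriv) (x := r) (y := 1) hr (one_pos : (0 : ℝ) < 1)
  simpa using h7

/-- the derivative of `W` -/
theorem W_der {C : TF q} {J : ℝ → E q → (E q →L[ℝ] E q)} (hC : CW q C) (hJ : JF q C J)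
    (t : ℝ) (l : E q) (x : E q) (hx : x ≠ 0) :
    HasFDerivAt (fun x => adjL q (J t x) l) (t • (C x).flip (adjL q (J t x) l)) x := by
  have h1 := hJ.der t x hx
  have h2 := ((adjL q).hasFDerivAt (x := J t x)).comp x h1
  have h3 := ((ContinuousLinearMap.apply ℝ (E q) l).hasFDerivAt (x := adjL q (J t x))).comp x h2
  refine h3.congr_fderiv ?_
  ext1 v
  have hs : adjL q (C x v) = C x v := adjL_self (fun b c => hC.symm x hx v b c)
  change adjL q ((t • ((ContinuousLinearMap.compL ℝ (E q) (E q) (E q) (J t x)).comp (C x))) v) l =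
    (t • (C x).flip (adjL q (J t x) l)) v
  rw [_root_.smul_apply, _root_.smul_apply, ContinuousLinearMap.comp_apply,
    ContinuousLinearMap.flip_apply, adjL_smul]
  change (t • adjL q (J t x * C x v)) l = _
  rw [adjL_mul, hs]
  rfl

theorem alg_aux (t : ℝ) (a K b c : E q →L[ℝ] E q) :
    (a * K) * ((-t) • (b * c)) + ((t • (c * a)) * K) * b =
      t • (c * (a * K * b - 1) - (a * K * b - 1) * c) := by
  ext1 w
  change a (K ((-t) • b (c w))) + t • c (a (K (b w))) =
    t • (c (a (K (b w)) - w) - (a (K (b (c w))) - c w))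
  rw [map_smul, map_smul, map_sub]
  module

/-- the duality `J_t^T K J_(-t) = 1` -/
theorem dual (hU : S_UNI) {C : TF q} {J : ℝ → E q → (E q →L[ℝ] E q)} (hC : CW q C)
    (hJ : JF q C J) (t : ℝ) (u : E q) (hu : u ≠ 0) (K : E q →L[ℝ] E q)
    (hK : adjL q (J t u) * K * J (-t) u = 1) :
    ∀ x, x ≠ 0 → adjL q (J t x) * K * J (-t) x = 1 := by
  set f : E q → (E q →L[ℝ] E q) := fun x => adjL q (J t x) * K * J (-t) x - 1 with hf
  set L : E q → E q →L[ℝ] (E q →L[ℝ] E q) := fun x =>
    t • ((ContinuousLinearMap.compL ℝ (E q) (E q) (E q)).flip (f x)).comp (C x) -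
      t • ((ContinuousLinearMap.compL ℝ (E q) (E q) (E q) (f x)).comp (C x)) with hL
  have hLv : ∀ x v, L x v = t • (C x v * f x - f x * C x v) := by
    intro x v
    rw [smul_sub]
    rfl
  have hder : ∀ x, x ≠ 0 → HasFDerivAt f (L x) x := by
    intro x hx
    have h1 := hJ.der t x hx
    have h2 := ((adjL q).hasFDerivAt (x := J t x)).comp x h1
    have h3 := (h2.mul_const' K).mul' (hJ.der (-t) x hx)
    have h4 := h3.sub_const (1 : E q →L[ℝ] E q)
    refine h4.congr_fderiv ?_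
    ext1 v
    have hs : adjL q (C x v) = C x v := adjL_self (fun b c => hC.symm x hx v b c)
    rw [hLv]
    have e1 : adjL q ((t • ((ContinuousLinearMap.compL ℝ (E q) (E q) (E q) (J t x)).comp (C x))) v)
        = t • (C x v * adjL q (J t x)) := by
      rw [_root_.smul_apply, ContinuousLinearMap.comp_apply, adjL_smul]
      change t • adjL q (J t x * C x v) = _
      rw [adjL_mul, hs]
    change (adjL q (J t x) * K) * ((-t) • (J (-t) x * C x v)) +
      (adjL q ((t • ((ContinuousLinearMap.compL ℝ (E q) (E q) (E q) (J t x)).comp (C x))) v) * K) *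
        J (-t) x = _
    rw [e1]
    exact alg_aux t (adjL q (J t x)) K (J (-t) x) (C x v)
  have hmain := hU q (E q →L[ℝ] E q) f L (fun x => 2 * |t| * ‖C x‖) ?_ ?_ ⟨u, hu, ?_⟩
  · intro x hx
    exact sub_eq_zero.1 (hmain x hx)
  · intro x hx
    have hn : Continuous (fun A : E q →L[ℝ] E q →L[ℝ] E q => ‖A‖) := by
      have h := @continuous_norm (E q →L[ℝ] E q →L[ℝ] E q) _
      exact h
    have hc : ContinuousAt (fun y => ‖C y‖) x :=
      (hn.continuousAt (x := C x)).comp (hC.smooth x hx).continuousAt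
    exact (continuousAt_const.mul hc).continuousWithinAt
  · intro x hx
    refine ⟨hder x hx, ?_⟩
    refine ContinuousLinearMap.opNorm_le_bound _ (by positivity) fun v => ?_
    rw [hLv, norm_smul, Real.norm_eq_abs]
    have h1 : ‖C x v * f x - f x * C x v‖ ≤ 2 * (‖C x‖ * ‖v‖ * ‖f x‖) := by
      refine (norm_sub_le _ _).trans ?_
      have h2 : ‖C x v‖ ≤ ‖C x‖ * ‖v‖ := (C x).le_opNorm v
      have h3 : ‖C x v * f x‖ ≤ ‖C x‖ * ‖v‖ * ‖f x‖ :=
        (norm_mul_le _ _).trans (mul_le_mul_of_nonneg_right h2 (norm_nonneg _))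
      have h4 : ‖f x * C x v‖ ≤ ‖C x‖ * ‖v‖ * ‖f x‖ := by
        refine (norm_mul_le _ _).trans ?_
        rw [mul_comm]
        exact mul_le_mul_of_nonneg_right h2 (norm_nonneg _)
      linarith
    calc |t| * ‖C x v * f x - f x * C x v‖ ≤ |t| * (2 * (‖C x‖ * ‖v‖ * ‖f x‖)) :=
          mul_le_mul_of_nonneg_left h1 (abs_nonneg t)
      _ = 2 * |t| * ‖C x‖ * ‖f x‖ * ‖v‖ := by ring
  · exact sub_eq_zero.2 hK

theorem key (hU : S_UNI) : S_KEY := by
  intro q C J hC hJ t u hu
  have hu0 : u ≠ 0 := by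
    intro h
    rw [h, norm_zero] at hu
    exact zero_ne_one hu
  -- inverses
  obtain ⟨⟨j, ji, hji, hij⟩, hj⟩ := hJ.unit t u hu0
  obtain ⟨⟨k, ki, hki, hik⟩, hk⟩ := hJ.unit (-t) u hu0
  have hj' : j = J t u := hj
  have hk' : k = J (-t) u := hk
  set l : E q := adjL q ji u with hl
  set K : E q →L[ℝ] E q := adjL q ji * ki with hKdef
  have ha1 : adjL q (J t u) * adjL q ji = 1 := by rw [← hj', ← adjL_mul, hij, adjL_one]
  have ha2 : adjL q ji * adjL q (J t u) = 1 := by rw [← hj', ← adjL_mul, hji, adjL_one]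
  have hK1 : adjL q (J t u) * K * J (-t) u = 1 := by
    rw [hKdef, ← mul_assoc, ha1, one_mul, ← hk', hik]
  have hKl : (J (-t) u * adjL q (J t u)) * K = 1 := by
    calc (J (-t) u * adjL q (J t u)) * (adjL q ji * ki) =
          J (-t) u * (adjL q (J t u) * adjL q ji) * ki := by simp only [mul_assoc]
      _ = 1 := by rw [ha1, mul_one, ← hk', hki]
  have hdual := dual hU hC hJ t u hu0 K hK1
  have hWu : adjL q (J t u) l = u := by
    have := congrArg (fun A : E q →L[ℝ] E q => A u) ha1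
    exact this
  refine ⟨fun x => adjL q (J t x) l, hWu, fun x hx => W_der hC hJ t l x hx, ?_⟩
  set f : E q → ℝ := fun x => ⟪adjL q (J t x) l, x⟫_ℝ with hf
  -- derivative of f
  have hfd : ∀ x, x ≠ 0 → HasFDerivAt f (innerSL ℝ (adjL q (J t x) l)) x := by
    intro x hx
    have h1 := (W_der hC hJ t l x hx).inner ℝ (hasFDerivAt_id x)
    refine h1.congr_fderiv ?_
    ext1 v
    have h2 : C x v x = 0 := by
      rw [hC.comm12 x hx v x, hC.rad x hx]
      rfl
    have h3 : ⟪C x v (adjL q (J t x) l), x⟫_ℝ = 0 := by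
      rw [hC.symm x hx, h2, inner_zero_left]
    simp only [ContinuousLinearMap.comp_apply, ContinuousLinearMap.prod_apply,
      fderivInnerCLM_apply, _root_.smul_apply, ContinuousLinearMap.flip_apply,
      id_eq, ContinuousLinearMap.id_apply, innerSL_apply_apply, inner_smul_left, h3]
    simp
  have hfhom : ∀ x, x ≠ 0 → ∀ r : ℝ, 0 < r → f (r • x) = r * f x := by
    intro x hx r hr
    rw [hf]
    simp only
    rw [J_hom hC hJ t x hx r hr, inner_smul_right]
  -- the maximum
  have hcont : ContinuousOn f (Metric.sphere (0 : E q) 1) := by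
    intro x hx
    have hx0 : x ≠ 0 := by
      intro h
      rw [h] at hx
      simp at hx
    exact (hfd x hx0).continuousAt.continuousWithinAt
  obtain ⟨x1, hx1, hmax⟩ := (isCompact_sphere (0 : E q) 1).exists_isMaxOn
    ⟨u, by simpa using hu⟩ hcont
  have hx1n : ‖x1‖ = 1 := by simpa using hx1
  have hx10 : x1 ≠ 0 := by
    intro h
    rw [h, norm_zero] at hx1n
    exact zero_ne_one hx1n
  set μ : ℝ := f x1 with hμ
  have hle : ∀ x, ‖x‖ = 1 → f x ≤ μ := fun x hx => hmax (by simpa using hx)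
  have hfu : f u = 1 := by
    rw [hf]
    simp only
    rw [hWu, real_inner_self_eq_norm_sq, hu, one_pow]
  have hμ1 : 1 ≤ μ := hfu ▸ hle u hu
  have hμ0 : 0 < μ := lt_of_lt_of_le one_pos hμ1
  have hle' : ∀ x, x ≠ 0 → f x ≤ μ * ‖x‖ := by
    intro x hx
    have hn : 0 < ‖x‖ := norm_pos_iff.2 hx
    have h1 : x = ‖x‖ • (‖x‖⁻¹ • x) := by
      rw [smul_smul, mul_inv_cancel₀ hn.ne', one_smul]
    have h2 : ‖‖x‖⁻¹ • x‖ = 1 := by
      rw [norm_smul, norm_inv, norm_norm, inv_mul_cancel₀ hn.ne']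
    have h3 : ‖x‖⁻¹ • x ≠ 0 := smul_ne_zero (inv_ne_zero hn.ne') hx
    have h4 : f x = ‖x‖ * f (‖x‖⁻¹ • x) := by
      conv_lhs => rw [h1]
      exact hfhom _ h3 _ hn
    rw [h4, mul_comm μ]
    exact mul_le_mul_of_nonneg_left (hle _ h2) hn.le
  -- critical point
  have hloc : IsLocalMax (fun x => f x - μ / 2 * (⟪x, x⟫_ℝ + 1)) x1 := by
    have hev : ∀ᶠ x in 𝓝 x1, x ≠ 0 := isOpen_ne.mem_nhds hx10
    filter_upwards [hev] with x hx
    have h1 := hle' x hx
    have h2 : ⟪x1, x1⟫_ℝ = 1 := by rw [real_inner_self_eq_norm_sq, hx1n, one_pow]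
    rw [h2, real_inner_self_eq_norm_sq]
    have h3 : μ * ‖x‖ ≤ μ / 2 * (‖x‖ ^ 2 + 1) := by nlinarith [sq_nonneg (‖x‖ - 1)]
    have h4 : f x1 = μ := rfl
    rw [h4]
    linarith
  have hder : HasFDerivAt (fun x => f x - μ / 2 * (⟪x, x⟫_ℝ + 1))
      (innerSL ℝ (adjL q (J t x1) l) - μ • innerSL ℝ x1) x1 := by
    have h1 : HasFDerivAt (fun x : E q => ⟪x, x⟫_ℝ) ((2 : ℝ) • innerSL ℝ x1) x1 := by
      refine ((hasFDerivAt_id x1).inner ℝ (hasFDerivAt_id x1)).congr_fderiv ?_
      ext1 v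
      simp only [ContinuousLinearMap.comp_apply, ContinuousLinearMap.prod_apply,
        fderivInnerCLM_apply, _root_.smul_apply, id_eq, ContinuousLinearMap.id_apply,
        innerSL_apply_apply, smul_eq_mul]
      rw [real_inner_comm v x1]
      ring
    have h2 := (hfd x1 hx10).sub (((h1.add_const 1)).const_mul (μ / 2))
    refine h2.congr_fderiv ?_
    rw [smul_smul]
    congr 2
    ring
  have hzero := hloc.hasFDerivAt_eq_zero hder
  have hW1 : adjL q (J t x1) l = μ • x1 := by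
    refine ext_inner_right ℝ fun v => ?_
    have := congrArg (fun A : E q →L[ℝ] ℝ => A v) hzero
    simp only [_root_.sub_apply, _root_.smul_apply, innerSL_apply_apply,
      smul_eq_mul, _root_.zero_apply] at this
    rw [inner_smul_left]
    simp only [conj_trivial]
    linarith
  -- the two expressions of l
  have hl1 : l = K (J (-t) u u) := by
    have h1 : adjL q (J t u) (K (J (-t) u u)) = u := congrArg (fun A : E q →L[ℝ] E q => A u) hK1
    have h2 : adjL q ji (adjL q (J t u) (K (J (-t) u u))) = K (J (-t) u u) :=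
      congrArg (fun A : E q →L[ℝ] E q => A (K (J (-t) u u))) ha2
    rw [h1] at h2
    exact h2
  have hl2 : l = K (J (-t) x1 (μ • x1)) := by
    obtain ⟨⟨j1, j1i, hj1i, hij1⟩, hj1⟩ := hJ.unit t x1 hx10
    have hj1' : j1 = J t x1 := hj1
    have ha3 : adjL q j1i * adjL q (J t x1) = 1 := by rw [← hj1', ← adjL_mul, hj1i, adjL_one]
    have h1 : adjL q (J t x1) (K (J (-t) x1 (μ • x1))) = μ • x1 :=
      congrArg (fun A : E q →L[ℝ] E q => A (μ • x1)) (hdual x1 hx10)
    have h2 : adjL q j1i (adjL q (J t x1) (K (J (-t) x1 (μ • x1)))) = K (J (-t) x1 (μ • x1)) :=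
      congrArg (fun A : E q →L[ℝ] E q => A (K (J (-t) x1 (μ • x1)))) ha3
    have h3 : adjL q j1i (adjL q (J t x1) l) = l :=
      congrArg (fun A : E q →L[ℝ] E q => A l) ha3
    rw [h1] at h2
    rw [hW1] at h3
    exact h3.symm.trans h2
  have heq : J (-t) u u = J (-t) x1 (μ • x1) := by
    have h1 : ∀ a : E q, (J (-t) u * adjL q (J t u)) (K a) = a := fun a =>
      congrArg (fun A : E q →L[ℝ] E q => A a) hKl
    rw [← h1 (J (-t) u u), ← hl1, hl2, h1]
  have hμx : μ • x1 ≠ 0 := smul_ne_zero hμ0.ne' hx10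
  have hux : u = μ • x1 := by
    refine hJ.inj (-t) u (μ • x1) hu0 hμx ?_
    rw [J_hom hC hJ (-t) x1 hx10 μ hμ0]
    exact heq
  have hμe : μ = 1 := by
    have h1 : ‖u‖ = ‖μ • x1‖ := by rw [← hux]
    rw [norm_smul, hx1n, hu, mul_one, Real.norm_eq_abs, abs_of_pos hμ0] at h1
    exact h1.symm
  intro x hx
  rw [← hμe]
  exact hle x hx

end Pool.Agent.W645.LG
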